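import Pool.Agent.K1H82.KU.Loc
import Pool.Agent.K1H82.KT.Fin
import Pool.Agent.K1H82.KQ.Fin
import Pool.Agent.K1H82.KQ.St

/-!
# Finiteness of the set of the local ideals
-/

set_option autoImplicit false
set_option linter.unusedSectionVars false

open MvPolynomial Pool.Agent.TH954.X Pool.Agent.K1H82.KM Filter Topology
open Pool.Agent.K1H82.KQ (EndAlg EndOf toEnd PtB GalK cjg OnX sg torB eI mI mI_pos mI_mem mul_eI)
open Pool.Agent.K1H82.KA (PtsB GActP ln ln_mul ln_one)
open Pool.Agent.K1H82.KR (Off off_up RatPts act_mul act_one act_sub act_natCast sg_act)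
open Pool.Agent.K1H82.KS (IdealFin Uni empty_eq)
open Pool.Agent.K1H82.KT

namespace Pool.Agent.K1H82.KU

section main

variable {K : Type} [Field K] [NumberField K] {n s N : ℕ} {A : AbVar K n} {E : EndAlg A}
  {T : Torus K s} {D : Tors T (fun _ : Fin 1 => A)} {G : Type} [Group G] {X : RMapT D N}
  {S : GActT D G}

lemma ZIU_eq {P P' Q : A.Pt (AlgebraicClosure K)} {e : E.R}
    (h : P' = P + E.act e Q) : ZIU E X P' e = ZIU E X P e := by
  ext f
  constructor
  · intro hf v Q0 z hz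
    refine hf v (Q0 - Q) z ?_
    have : P' + E.act e (Q0 - Q) = P + E.act e Q0 := by
      rw [h, map_sub]
      abel
    rw [this]
    exact hz
  · intro hf v Q0 z hz
    refine hf v (Q + Q0) z ?_
    have : P + E.act e (Q + Q0) = P' + E.act e Q0 := by
      rw [h, map_add]
      abel
    rw [this]
    exact hz

lemma fin_coset (X : RMapT D N) (e : E.R) {m k : ℕ} (hm : 0 < m) (hk : 0 < k)
    (c T0 : A.Pt (AlgebraicClosure K)) :
    {I : Set (MvPolynomial (Fin N) K) | ∃ P : A.Pt (AlgebraicClosure K),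
      E.act ((m : E.R) - e) (k • P - c) = T0 ∧ I = ZIU E X P e}.Finite := by
  by_cases hne : ∃ P0 : A.Pt (AlgebraicClosure K), E.act ((m : E.R) - e) (k • P0 - c) = T0
  · obtain ⟨P0, hP0⟩ := hne
    have hM : 0 < m * k := Nat.mul_pos hm hk
    refine ((E.tor _ hM).image (fun w => ZIU E X (P0 + w) e)).subset ?_
    rintro _ ⟨P, hP, rfl⟩
    obtain ⟨Q, hQ⟩ := A.div (AlgebraicClosure K) (k • (P - P0)) (m * k) hM
    have hQ' : (m * k) • Q = k • (P - P0) := hQ
    have h1 : E.act ((m : E.R) - e) (k • (P - P0)) = 0 := by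
      have h2 : k • (P - P0) = (k • P - c) - (k • P0 - c) := by
        rw [smul_sub]
        abel
      rw [h2, map_sub, hP, hP0, sub_self]
    rw [act_sub, act_natCast, sub_eq_zero, smul_smul, ← hQ', map_nsmul] at h1
    refine ⟨P - P0 - E.act e Q, ?_, ?_⟩
    · change (m * k) • (P - P0 - E.act e Q) = 0
      rw [smul_sub, h1, sub_self]
    · refine (ZIU_eq (Q := Q) ?_).symm
      abel
  · refine Set.finite_empty.subset ?_
    rintro _ ⟨P, hP, -⟩
    exact absurd ⟨P, hP⟩ hne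

variable [Fintype G]

/-- the ideals which occur -/
def TypU (X : RMapT D N) (Y : LinG E S) : Set (Set (MvPolynomial (Fin N) K)) :=
  {I | ∃ (u : TpB K s) (P : PtsB (fun _ : Fin 1 => A)) (y : Fin N → K), ImgT X.Fam u P (up y) ∧
    Off X.eqW (up y) ∧ I = ZIU E X (P 0) (eI E (an Y u P))}

theorem typU_fin (Y : LinG E S) (hX : IsQuotT X S) : (TypU X Y).Finite := by
  classical
  have hT := torB A (E.gal_fin.toFinset.card * Fintype.card G)
  refine (((an_fin Y)).biUnion (t := fun I0 => ⋃ T0 ∈ {T0 : A.Pt (AlgebraicClosure K) |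
      (∃ k : ℕ, 0 < k ∧ k • T0 = 0) ∧ ∃ s : Finset (A.Pt (AlgebraicClosure K)),
        s.card ≤ E.gal_fin.toFinset.card * Fintype.card G ∧ ∀ σ, sg A σ T0 ∈ s},
    {I : Set (MvPolynomial (Fin N) K) | ∃ P : A.Pt (AlgebraicClosure K),
      E.act ((mI E I0 : E.R) - eI E I0) (nn (D := D) (G := G) • P - Zc S 0) = T0 ∧
        I = ZIU E X P (eI E I0)}) (fun I0 _ => hT.biUnion (fun T0 _ =>
      fin_coset X (eI E I0) (mI_pos I0) nn_pos (Zc S 0) T0))).subset ?_
  rintro _ ⟨u, P, y, hy, ho, rfl⟩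
  set a : E.R := (mI E (an Y u P) : E.R) - eI E (an Y u P) with ha
  refine Set.mem_biUnion (x := an Y u P) ⟨u, P, rfl⟩ (Set.mem_biUnion
    (x := E.act a (nn (D := D) (G := G) • P 0 - Zc S 0)) ?_ ⟨P 0, rfl, rfl⟩)
  refine ⟨(mem_an Y u P a).1 (mI_mem (an Y u P)) _ (RT_mem Y), ?_⟩
  set F : RingAut E.S × G → A.Pt (AlgebraicClosure K) := fun p =>
    if h : p.1 a ∈ E.R then E.act ⟨p.1 a, h⟩ (E.act (Y.lin p.2) (RT S P 0)) else 0 with hF
  refine ⟨(E.gal_fin.toFinset ×ˢ Finset.univ).image F, ?_, fun σ => ?_⟩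
  · refine Finset.card_image_le.trans ?_
    rw [Finset.card_product, Finset.card_univ]
  · obtain ⟨g, hg⟩ := conj_ex hX hy ho σ
    rw [Finset.mem_image]
    refine ⟨(E.gal σ, g), ?_, ?_⟩
    · rw [Finset.mem_product]
      exact ⟨E.gal_fin.mem_toFinset.2 ⟨σ, rfl⟩, Finset.mem_univ _⟩
    · have h1 : (E.gal σ) (a : E.S) ∈ E.R := E.gal_mem σ a a.2
      have h2 : sg A σ (RT S P 0) = E.act (Y.lin g) (RT S P 0) := Mo_sg Y (RT_mem Y) hg
      simp only [hF]
      rw [dif_pos h1, ← h2]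
      exact (sg_act σ a _).symm

theorem mainU (hDen : S_DEN) (hSml : S_SML) (Y : LinG E S) (hX : IsQuotT X S) {ι : Type}
    [Finite ι] [Nonempty ι]
    (L : ι → Type) [∀ i, NontriviallyNormedField (L i)] [∀ i, CompleteSpace (L i)]
    (σ : ∀ i, K →+* L i) (hσ : ∀ i, DenseRange (σ i)) (x : ∀ i, Fin N → L i)
    (hx0 : ∀ i, x i ≠ 0) :
    IdealFin X.eqX X.eqW σ x ∈ (fun S => {f | ∀ I ∈ S, f ∈ I}) '' (TypU X Y).powerset := by
  -- the types which occur in every neighbourhood
  set S' : Set (Set (MvPolynomial (Fin N) K)) := {I | I ∈ TypU X Y ∧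
    ∀ U : ∀ i, Set (Fin N → L i), (∀ i, U i ∈ 𝓝 (x i)) →
    ∃ (u : TpB K s) (P : PtsB (fun _ : Fin 1 => A)) (y : Fin N → K), ImgT X.Fam u P (up y) ∧
      Off X.eqW (up y) ∧ (∀ i, ∃ c : L i, c ≠ 0 ∧ (fun j => c * σ i (y j)) ∈ U i) ∧
      I = ZIU E X (P 0) (eI E (an Y u P))} with hS'
  refine ⟨S', fun I hI => hI.1, ?_⟩
  ext f
  constructor
  · intro hf
    have hU : ∀ I ∈ TypU X Y, ∃ U : ∀ i, Set (Fin N → L i), (∀ i, U i ∈ 𝓝 (x i)) ∧ (I ∉ S' →
        ¬ ∃ (u : TpB K s) (P : PtsB (fun _ : Fin 1 => A)) (y : Fin N → K),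
          ImgT X.Fam u P (up y) ∧
          Off X.eqW (up y) ∧ (∀ i, ∃ c : L i, c ≠ 0 ∧ (fun j => c * σ i (y j)) ∈ U i) ∧
          I = ZIU E X (P 0) (eI E (an Y u P))) := by
      intro I hI
      by_cases hIS : I ∈ S'
      · exact ⟨fun _ => Set.univ, fun _ => univ_mem, fun h => absurd hIS h⟩
      · have h1 : ¬ ∀ U : ∀ i, Set (Fin N → L i), (∀ i, U i ∈ 𝓝 (x i)) →
            ∃ (u : TpB K s) (P : PtsB (fun _ : Fin 1 => A)) (y : Fin N → K),
              ImgT X.Fam u P (up y) ∧ Off X.eqW (up y) ∧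
              (∀ i, ∃ c : L i, c ≠ 0 ∧ (fun j => c * σ i (y j)) ∈ U i) ∧
              I = ZIU E X (P 0) (eI E (an Y u P)) := fun h => hIS ⟨hI, h⟩
        simp only [not_forall] at h1
        obtain ⟨U, hU, hU'⟩ := h1
        exact ⟨U, hU, fun _ => hU'⟩
    choose! U hU hUI using hU
    refine ⟨fun i => ⋂ I ∈ TypU X Y, U I i, fun i => (Filter.biInter_mem (typU_fin Y hX)).2
      (fun I hI => hU I hI i), ?_⟩
    rintro y ⟨hy0, hye, hyo⟩ hyU a
    have hup0 : up y ≠ 0 := by
      intro h0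
      apply hy0
      funext i
      have := congrFun h0 i
      exact (map_eq_zero_iff _ (algebraMap K (AlgebraicClosure K)).injective).1 this
    have ho : Off X.eqW (up y) := off_up.2 hyo
    obtain ⟨u, P, hP⟩ := X.surj (up y) ⟨hup0, fun g hg => (eval_up_iff y g).2 (hye g hg)⟩ ho
    have hT : ZIU E X (P 0) (eI E (an Y u P)) ∈ TypU X Y := ⟨u, P, y, hP, ho, rfl⟩
    have hIS : ZIU E X (P 0) (eI E (an Y u P)) ∈ S' := by
      by_contra hIS
      refine hUI _ hT hIS ⟨u, P, y, hP, ho, fun i => ?_, rfl⟩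
      obtain ⟨c, hc, hcU⟩ := hyU i
      exact ⟨c, hc, Set.mem_iInter₂.1 hcU _ hT⟩
    have hP' : ImgT X.Fam u (fun _ => P 0 + E.act (eI E (an Y u P)) 0) (up y) := by
      have h1 : (fun _ : Fin 1 => P 0 + E.act (eI E (an Y u P)) 0) = P := by
        funext b
        have hb : b = 0 := Subsingleton.elim _ _
        subst hb
        rw [map_zero, add_zero]
      rw [h1]
      exact hP
    have h2 := hf _ hIS u 0 (up y) hP' (algebraMap K (AlgebraicClosure K) a)
    have h3 : algebraMap K (AlgebraicClosure K) a • up y = up (a • y) := by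
      funext i
      change _ * algebraMap K (AlgebraicClosure K) (y i) =
        algebraMap K (AlgebraicClosure K) (a * y i)
      rw [map_mul]
    rw [h3] at h2
    exact (eval_up_iff _ _).1 h2
  · rintro ⟨U, hU, hf⟩ I ⟨hI, hI'⟩
    choose V hVU hV hxV using fun i => mem_nhds_iff.1 (hU i)
    have hV0 : ∀ i, IsOpen (V i ∩ {v | v ≠ 0}) := fun i => (hV i).inter isOpen_ne
    obtain ⟨u, P, y, hy, ho, hc, rfl⟩ := hI' (fun i => V i ∩ {v | v ≠ 0})
      (fun i => (hV0 i).mem_nhds ⟨hxV i, hx0 i⟩)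
    refine locU hDen hSml Y hX L σ hσ f hV0 (fun i h => h.2 rfl) ?_ u P y hy ho
      (fun i => (hc i).imp fun c h => h.2) (eI E (an Y u P)) (mul_eI _)
    intro y hy0 hye hyo hc a
    refine hf y ⟨hy0, hye, hyo⟩ (fun i => ?_) a
    obtain ⟨c, hc, hcU⟩ := hc i
    exact ⟨c, hc, hVU i hcU.1⟩

end main

section stm

variable {K : Type} [Field K] {n s N : ℕ}

/-- The group acts on the abelian variety through maps `P ↦ α_g (P) + t_g` with elements `α_g` of
the endomorphism ring. -/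
structure LinE {A : AbVar K n} (E : EndOf A) {T : Torus K s} {D : Tors T (fun _ : Fin 1 => A)}
    {G : Type} [Group G] (S : GActT D G) where
  lin : G → E.B.Rt
  lin_one : lin 1 = 1
  lin_mul : ∀ g h, lin (g * h) = lin g * lin h
  lin_act : ∀ g P, S.act.lin g 0 P = E.on.act (lin g) P
  gal_lin : ∀ σ g, E.B.co (lin (S.galG σ g)) = E.on.gal σ (E.B.co (lin g))

/-- The complement of a closed subset in a projective variety in `ℙ ^ (N - 1)` which is the quotient
by a finite group of an open subset of a product of a torsor of a torus and a torsor of an abelian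
variety over `K`. -/
structure PieceU (K : Type) [Field K] (N : ℕ) where
  s : ℕ
  T : Torus K s
  n : ℕ
  A : AbVar K n
  E : EndOf A
  D : Tors T (fun _ : Fin 1 => A)
  G : Type
  [grp : Group G]
  [fin : Finite G]
  S : GActT D G
  lin : LinE E S
  X : RMapT D N
  quot : IsQuotT X S

attribute [instance] PieceU.grp PieceU.fin

/-- the action in the other form -/
noncomputable def toLin {A : AbVar K n} {E : EndOf A} {T : Torus K s}
    {D : Tors T (fun _ : Fin 1 => A)} {G : Type} [Group G] {S : GActT D G} (l : LinE E S) :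
    LinG (toEnd E) S where
  lin := { toFun := l.lin, map_one' := l.lin_one, map_mul' := l.lin_mul }
  lin_eq := l.lin_act
  gal_lin := l.gal_lin

/-- one piece -/
theorem uni_pieceU (hDen : S_DEN) (hSml : S_SML) {K : Type} [Field K] [NumberField K] {N : ℕ}
    (p : PieceU K N) : Uni p.X.eqX p.X.eqW := by
  have := Fintype.ofFinite p.G
  refine ⟨(fun S => {f | ∀ I ∈ S, f ∈ I}) '' (TypU p.X (toLin p.lin)).powerset ∪
    {{f | ∀ y ∈ RatPts p.X.eqX p.X.eqW, ∀ a : K, eval (a • y) f = 0}},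
    ((typU_fin (toLin p.lin) p.quot).powerset.image _).union (Set.finite_singleton _), ?_⟩
  intro ι _ L _ _ σ hσ x hx0
  cases isEmpty_or_nonempty ι with
  | inl h =>
    right
    exact empty_eq _ _ _ _
  | inr h =>
    left
    exact mainU hDen hSml (toLin p.lin) p.quot L σ hσ x hx0

end stm

end Pool.Agent.K1H82.KU
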