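import Pool.Agent.K1H82.KT.Rat
import Pool.Agent.K1H82.KR.Gen

/-!
# The twisted groups of points and their annihilators
-/

set_option autoImplicit false
set_option linter.unusedSectionVars false

open MvPolynomial Pool.Agent.TH954.X Pool.Agent.K1H82.KM
open Pool.Agent.K1H82.KQ (EndAlg sg PtB GalK cjg)
open Pool.Agent.K1H82.KA (PtsB GActP ln)
open Pool.Agent.K1H82.KR (cns csb cnt act_mul act_one act_add act_sub act_nsmul act_natCast sg_act)
open Pool.Agent.K1H82.KT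

namespace Pool.Agent.K1H82.KU

variable {K : Type} [Field K] {n s : ℕ} {A : AbVar K n} {E : EndAlg A} {T : Torus K s}
  {D : Tors T (fun _ : Fin 1 => A)} {G : Type} [Group G] {S : GActT D G}

/-- the group acts on the abelian variety through the endomorphisms -/
structure LinG (E : EndAlg A) (S : GActT D G) where
  lin : G →* E.R
  lin_eq : ∀ g (P : A.Pt (AlgebraicClosure K)), S.act.lin g 0 P = E.act (lin g) P
  gal_lin : ∀ σ g, (lin (S.galG σ g) : E.S) = E.gal σ (lin g)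

lemma twT_one (u : TpB K s) : twT D 1 u = u := by
  unfold twT
  rw [cjT_eq, T.ρ_one, mon_one_mat, a_one, mul_one]
  funext i
  exact Units.ext rfl

lemma twA_one (P : PtsB (fun _ : Fin 1 => A)) : twA D 1 P = P := by
  funext b
  change cjg A 1 (P b) + D.c 1 b = P b
  rw [c_one, add_zero]
  rfl

lemma stab_mul {g g' : G} {σ σ' : GalK K} {u : TpB K s} {P : PtsB (fun _ : Fin 1 => A)}
    (h : Moves S g (twT D σ u) (twA D σ P) u P) (h' : Moves S g' (twT D σ' u) (twA D σ' P) u P) :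
    Moves S (g * S.galG σ g') (twT D (σ * σ') u) (twA D (σ * σ') P) u P := by
  rw [twT_comp, twA_comp]
  exact (h'.conj σ).comp h

lemma stab_inv {g : G} {σ : GalK K} {u : TpB K s} {P : PtsB (fun _ : Fin 1 => A)}
    (h : Moves S g (twT D σ u) (twA D σ P) u P) :
    Moves S (S.galG σ⁻¹ g⁻¹) (twT D σ⁻¹ u) (twA D σ⁻¹ P) u P := by
  have h1 := h.inv.conj σ⁻¹
  rw [← twT_comp, ← twA_comp, inv_mul_cancel, twT_one, twA_one] at h1
  exact h1

lemma stab_one (u : TpB K s) (P : PtsB (fun _ : Fin 1 => A)) :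
    Moves S 1 (twT D 1 u) (twA D 1 P) u P := by
  rw [twT_one, twA_one]
  exact moves_one S u P

lemma lin_inv (Y : LinG E S) (g : G) {R R' : A.Pt (AlgebraicClosure K)}
    (h : E.act (Y.lin g) R = R') : R = E.act (Y.lin g⁻¹) R' := by
  rw [← h, ← act_mul, ← map_mul, inv_mul_cancel, map_one, act_one]

/-- the twisted group: the points `R` with `α_g (σ R) = R` for all `g`, `σ` such that `g • σ P = P`. -/
noncomputable def Mo (Y : LinG E S) (u : TpB K s) (P : PtsB (fun _ : Fin 1 => A)) :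
    AddSubgroup (A.Pt (AlgebraicClosure K)) where
  carrier := {R | ∀ g σ, Moves S g (twT D σ u) (twA D σ P) u P → E.act (Y.lin g) (sg A σ R) = R}
  zero_mem' := by
    intro g σ _
    rw [map_zero, map_zero]
  add_mem' := by
    intro R R' hR hR' g σ h
    rw [map_add, map_add, hR g σ h, hR' g σ h]
  neg_mem' := by
    intro R hR g σ h
    rw [map_neg, map_neg, hR g σ h]

lemma mem_Mo (Y : LinG E S) {u : TpB K s} {P : PtsB (fun _ : Fin 1 => A)}
    {R : A.Pt (AlgebraicClosure K)} : R ∈ Mo Y u P ↔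
    ∀ g σ, Moves S g (twT D σ u) (twA D σ P) u P → E.act (Y.lin g) (sg A σ R) = R := Iff.rfl

/-- `R` is a torsion point -/
def Tor1 (R : A.Pt (AlgebraicClosure K)) : Prop := ∃ k : ℕ, 0 < k ∧ k • R = 0

lemma Tor1.add {R R' : A.Pt (AlgebraicClosure K)} (h : Tor1 R) (h' : Tor1 R') :
    Tor1 (R + R') := by
  obtain ⟨k, hk, e⟩ := h
  obtain ⟨k', hk', e'⟩ := h'
  refine ⟨k * k', Nat.mul_pos hk hk', ?_⟩
  rw [smul_add, mul_comm, mul_smul, e, smul_zero, zero_add, mul_comm, mul_smul, e', smul_zero]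

lemma Tor1.map {R : A.Pt (AlgebraicClosure K)} (h : Tor1 R)
    (f : A.Pt (AlgebraicClosure K) →+ A.Pt (AlgebraicClosure K)) : Tor1 (f R) := by
  obtain ⟨k, hk, e⟩ := h
  exact ⟨k, hk, by rw [← map_nsmul, e, map_zero]⟩

lemma Tor1.of_nsmul {R : A.Pt (AlgebraicClosure K)} {m : ℕ} (hm : 0 < m) (h : Tor1 (m • R)) :
    Tor1 R := by
  obtain ⟨k, hk, e⟩ := h
  exact ⟨k * m, Nat.mul_pos hk hm, by rw [mul_smul]; exact e⟩

/-- the annihilator of the twisted group -/
noncomputable def an (Y : LinG E S) (u : TpB K s) (P : PtsB (fun _ : Fin 1 => A)) : Ideal E.S where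
  carrier := {s | ∃ (m : ℕ) (α : E.R), 0 < m ∧ (α : E.S) = m • s ∧
    ∀ R ∈ Mo Y u P, Tor1 (E.act α R)}
  zero_mem' := ⟨1, 0, Nat.one_pos, by simp, fun R _ => ⟨1, Nat.one_pos, by
    rw [map_zero]
    simp⟩⟩
  add_mem' := by
    rintro s s' ⟨m, α, hm, hα, h⟩ ⟨m', α', hm', hα', h'⟩
    refine ⟨m * m', m' • α + m • α', Nat.mul_pos hm hm', ?_, fun R hR => ?_⟩
    · rw [Subring.coe_add, cns, cns, hα, hα', smul_add, smul_smul,
        smul_smul, mul_comm m' m]
    · rw [act_add, act_nsmul, act_nsmul]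
      exact ((h R hR).map (nsmulAddMonoidHom m')).add ((h' R hR).map (nsmulAddMonoidHom m))
  smul_mem' := by
    rintro c s ⟨m, α, hm, hα, h⟩
    obtain ⟨k, hk, hkc⟩ := E.mult c
    refine ⟨k * m, ⟨k • c, hkc⟩ * α, Nat.mul_pos hk hm, ?_, fun R hR => ?_⟩
    · rw [Subring.coe_mul, hα, smul_mul_assoc, mul_smul_comm, smul_smul, smul_eq_mul]
    · rw [act_mul]
      exact (h R hR).map _

lemma mem_an (Y : LinG E S) (u : TpB K s) (P : PtsB (fun _ : Fin 1 => A)) (β : E.R) :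
    (β : E.S) ∈ an Y u P ↔ ∀ R ∈ Mo Y u P, Tor1 (E.act β R) := by
  constructor
  · rintro ⟨m, α, hm, hα, h⟩ R hR
    have h1 : α = m • β := Subtype.ext (by rw [hα, cns])
    have h2 := h R hR
    rw [h1, act_nsmul] at h2
    exact h2.of_nsmul hm
  · intro h
    exact ⟨1, β, Nat.one_pos, by rw [one_smul], h⟩

/-- conjugation with `α_g` -/
noncomputable def cj (Y : LinG E S) (g : G) : RingAut E.S where
  toFun s := (Y.lin g : E.S) * s * (Y.lin g⁻¹ : E.S)
  invFun s := (Y.lin g⁻¹ : E.S) * s * (Y.lin g : E.S)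
  left_inv s := by
    have h : (Y.lin g⁻¹ : E.S) * (Y.lin g : E.S) = 1 := by
      rw [← Subring.coe_mul, ← map_mul, inv_mul_cancel, map_one, Subring.coe_one]
    calc (Y.lin g⁻¹ : E.S) * ((Y.lin g : E.S) * s * (Y.lin g⁻¹ : E.S)) * (Y.lin g : E.S)
        = ((Y.lin g⁻¹ : E.S) * (Y.lin g : E.S)) * s * ((Y.lin g⁻¹ : E.S) * (Y.lin g : E.S)) := by
          simp only [mul_assoc]
      _ = s := by rw [h, mul_one, one_mul]
  right_inv s := by
    have h : (Y.lin g : E.S) * (Y.lin g⁻¹ : E.S) = 1 := by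
      rw [← Subring.coe_mul, ← map_mul, mul_inv_cancel, map_one, Subring.coe_one]
    calc (Y.lin g : E.S) * ((Y.lin g⁻¹ : E.S) * s * (Y.lin g : E.S)) * (Y.lin g⁻¹ : E.S)
        = ((Y.lin g : E.S) * (Y.lin g⁻¹ : E.S)) * s * ((Y.lin g : E.S) * (Y.lin g⁻¹ : E.S)) := by
          simp only [mul_assoc]
      _ = s := by rw [h, mul_one, one_mul]
  map_mul' s s' := by
    have h : (Y.lin g⁻¹ : E.S) * (Y.lin g : E.S) = 1 := by
      rw [← Subring.coe_mul, ← map_mul, inv_mul_cancel, map_one, Subring.coe_one]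
    calc (Y.lin g : E.S) * (s * s') * (Y.lin g⁻¹ : E.S)
        = (Y.lin g : E.S) * s * 1 * s' * (Y.lin g⁻¹ : E.S) := by rw [mul_one, mul_assoc _ s s']
      _ = _ := by rw [← h]; simp only [mul_assoc]
  map_add' s s' := by rw [mul_add, add_mul]

lemma cj_apply (Y : LinG E S) (g : G) (s : E.S) :
    cj Y g s = (Y.lin g : E.S) * s * (Y.lin g⁻¹ : E.S) := rfl

lemma cj_mul (Y : LinG E S) (g h : G) : cj Y (g * h) = cj Y g * cj Y h := by
  ext s
  change cj Y (g * h) s = cj Y g (cj Y h s)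
  rw [cj_apply, cj_apply, cj_apply, mul_inv_rev, map_mul, map_mul, Subring.coe_mul,
    Subring.coe_mul]
  simp only [mul_assoc]

lemma cj_one (Y : LinG E S) : cj Y 1 = 1 := by
  ext s
  change cj Y 1 s = s
  rw [cj_apply, inv_one, map_one, Subring.coe_one, one_mul, mul_one]

lemma gal_cj (Y : LinG E S) (σ : AlgebraicClosure K ≃ₐ[K] AlgebraicClosure K) (g : G) :
    E.gal σ * cj Y g = cj Y (S.galG σ g) * E.gal σ := by
  ext s
  change E.gal σ (cj Y g s) = cj Y (S.galG σ g) (E.gal σ s)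
  rw [cj_apply, cj_apply, map_mul, map_mul, Y.gal_lin, ← map_inv, Y.gal_lin]

/-- the group of the automorphisms of `S` given by the stabiliser of `P` -/
noncomputable def HP (Y : LinG E S) (u : TpB K s) (P : PtsB (fun _ : Fin 1 => A)) :
    Subgroup (RingAut E.S) where
  carrier := {τ | ∃ g σ, Moves S g (twT D σ u) (twA D σ P) u P ∧ τ = cj Y g * E.gal σ}
  one_mem' := ⟨1, 1, stab_one u P, by rw [cj_one, map_one, one_mul]⟩
  mul_mem' := by
    rintro _ _ ⟨g, σ, h, rfl⟩ ⟨g', σ', h', rfl⟩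
    refine ⟨g * S.galG σ g', σ * σ', stab_mul h h', ?_⟩
    · rw [cj_mul, map_mul]
      calc cj Y g * E.gal σ * (cj Y g' * E.gal σ')
          = cj Y g * (E.gal σ * cj Y g') * E.gal σ' := by simp only [mul_assoc]
        _ = _ := by rw [gal_cj]; simp only [mul_assoc]
  inv_mem' := by
    rintro _ ⟨g, σ, h, rfl⟩
    refine ⟨S.galG σ⁻¹ g⁻¹, σ⁻¹, stab_inv h, ?_⟩
    · rw [mul_inv_rev, ← map_inv, ← gal_cj]
      congr 1
      apply inv_eq_of_mul_eq_one_right
      rw [← cj_mul, mul_inv_cancel, cj_one]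

/-- all these automorphisms -/
def Tset (Y : LinG E S) : Set (RingAut E.S) := {τ | ∃ g σ, τ = cj Y g * E.gal σ}

lemma Tset_fin [Finite G] (Y : LinG E S) : (Tset Y).Finite := by
  refine ((Set.finite_range (cj Y)).image2 (fun a b => a * b) E.gal_fin).subset ?_
  rintro _ ⟨g, σ, rfl⟩
  exact ⟨cj Y g, ⟨g, rfl⟩, E.gal σ, ⟨σ, rfl⟩, rfl⟩

lemma HP_sub (Y : LinG E S) (u : TpB K s) (P : PtsB (fun _ : Fin 1 => A)) :
    (HP Y u P : Set (RingAut E.S)) ⊆ Tset Y := by
  rintro _ ⟨g, σ, -, rfl⟩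
  exact ⟨g, σ, rfl⟩

lemma an_stable (Y : LinG E S) (u : TpB K s) (P : PtsB (fun _ : Fin 1 => A)) :
    ∀ τ ∈ HP Y u P, ∀ s ∈ an Y u P, (τ : RingAut E.S) s ∈ an Y u P := by
  rintro _ ⟨g, σ, h, rfl⟩ s ⟨m, α, hm, hα, hs⟩
  refine ⟨m, Y.lin g * ⟨E.gal σ α, E.gal_mem σ α α.2⟩ * Y.lin g⁻¹, hm, ?_, fun R hR => ?_⟩
  · change _ = m • cj Y g (E.gal σ s)
    rw [cj_apply, Subring.coe_mul, Subring.coe_mul]
    change (Y.lin g : E.S) * E.gal σ α * (Y.lin g⁻¹ : E.S) = _
    rw [hα, map_nsmul, mul_smul_comm, smul_mul_assoc]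
  · rw [act_mul, act_mul, ← lin_inv Y g (mem_Mo Y |>.1 hR g σ h), ← sg_act]
    exact ((hs R hR).map (sg A σ)).map _

lemma an_right (Y : LinG E S) (u : TpB K s) (P : PtsB (fun _ : Fin 1 => A)) :
    ∀ s ∈ an Y u P, ∀ b ∈ fixB (HP Y u P), s * b ∈ an Y u P := by
  rintro s ⟨m, α, hm, hα, hs⟩ b hb
  obtain ⟨k, hk, hkb⟩ := E.mult b
  refine ⟨m * k, α * ⟨k • b, hkb⟩, Nat.mul_pos hm hk, ?_, fun R hR => ?_⟩
  · rw [Subring.coe_mul, hα, smul_mul_assoc, mul_smul_comm, smul_smul]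
  · rw [act_mul]
    refine hs _ (fun g σ h => ?_)
    rw [sg_act, lin_inv Y g (mem_Mo Y |>.1 hR g σ h), ← act_mul, ← act_mul]
    congr 2
    apply Subtype.ext
    rw [Subring.coe_mul, Subring.coe_mul]
    change (Y.lin g : E.S) * E.gal σ (k • b) * (Y.lin g⁻¹ : E.S) = k • b
    rw [map_nsmul, mul_smul_comm, smul_mul_assoc, ← cj_apply]
    congr 1
    exact hb _ ⟨g, σ, h, rfl⟩

/-- there are only finitely many annihilators -/
theorem an_fin [Finite G] (Y : LinG E S) :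
    {I | ∃ (u : TpB K s) (P : PtsB (fun _ : Fin 1 => A)), I = an Y u P}.Finite := by
  have h1 : {H : Subgroup (RingAut E.S) | (H : Set (RingAut E.S)) ⊆ Tset Y}.Finite := by
    refine Set.Finite.of_finite_image (f := fun H : Subgroup (RingAut E.S) =>
      (H : Set (RingAut E.S))) ((Tset_fin Y).powerset.subset ?_) ?_
    · rintro _ ⟨H, hH, rfl⟩
      exact hH
    · intro H _ H' _ h
      exact SetLike.coe_injective h
  refine (h1.biUnion (t := fun H => {I : Ideal E.S |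
    (∀ h ∈ H, ∀ x ∈ I, (h : RingAut E.S) x ∈ I) ∧ ∀ x ∈ I, ∀ b ∈ fixB H, x * b ∈ I})
    (fun H hH => ?_)).subset ?_
  · have : Finite H := ((Tset_fin Y).subset hH).to_subtype
    exact fin_ideals H
  · rintro _ ⟨u, P, rfl⟩
    exact Set.mem_biUnion (x := HP Y u P) (HP_sub Y u P) ⟨an_stable Y u P, an_right Y u P⟩

end Pool.Agent.K1H82.KU
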