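import Pool.Agent.K1H82.KU.Rat
import Pool.Agent.K1H82.KT.Loc

/-!
# The local Zariski closures
-/

set_option autoImplicit false
set_option linter.unusedSectionVars false

open MvPolynomial Pool.Agent.TH954.X Pool.Agent.K1H82.KM Filter Topology
open Pool.Agent.K1H82.KQ (EndAlg PtB GalK cjg OnX sg IsBasP closureP closureP_trans)
open Pool.Agent.K1H82.KA (PtsB GActP ln ln_mul ln_one)
open Pool.Agent.K1H82.KR (Off off_up act_mul act_one)
open Pool.Agent.K1H82.KS (Sq sq_near)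
open Pool.Agent.K1H82.KT

namespace Pool.Agent.K1H82.KU

/-- a basis of the neighbourhoods of zero of the group `M` -/
structure BasM {K : Type} [Field K] {n : ℕ} {A : AbVar K n}
    (M : AddSubgroup (A.Pt (AlgebraicClosure K))) (𝓤 : Set (Set (A.Pt (AlgebraicClosure K)))) :
    Prop where
  bas : IsBasP A 𝓤
  sub : ∀ V ∈ 𝓤, V ⊆ M
  sq : ∀ V ∈ 𝓤, ∀ R ∈ M, Sq {m : ℤ | m • R ∈ V}

section bas

variable {K : Type} [Field K] {n : ℕ} {A : AbVar K n}
  {M : AddSubgroup (A.Pt (AlgebraicClosure K))}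

lemma BasF.toM {F : IntermediateField K (AlgebraicClosure K)}
    {𝓤 : Set (Set (A.Pt (AlgebraicClosure K)))} (h : BasF A F 𝓤)
    (hM : ∀ R ∈ M, ∀ c, R.1 c ∈ F) : BasM M {U | ∃ V ∈ 𝓤, U = V ∩ M} := by
  refine ⟨⟨?_, ?_, ?_, ?_⟩, ?_, ?_⟩
  · obtain ⟨V, hV⟩ := h.bas.ne
    exact ⟨_, V, hV, rfl⟩
  · rintro _ ⟨V, hV, rfl⟩
    exact ⟨h.bas.zero V hV, M.zero_mem⟩
  · rintro _ ⟨V, hV, rfl⟩
    obtain ⟨V', hV', h'⟩ := h.bas.sub V hV
    exact ⟨_, ⟨V', hV', rfl⟩, fun R hR R' hR' => ⟨h' R hR.1 R' hR'.1, M.sub_mem hR.2 hR'.2⟩⟩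
  · rintro _ ⟨V, hV, rfl⟩ _ ⟨V', hV', rfl⟩
    obtain ⟨V2, hV2, h2⟩ := h.bas.inter V hV V' hV'
    exact ⟨_, ⟨V2, hV2, rfl⟩, fun R hR => ⟨⟨(h2 hR.1).1, hR.2⟩, ⟨(h2 hR.1).2, hR.2⟩⟩⟩
  · rintro _ ⟨V, hV, rfl⟩
    exact Set.inter_subset_right
  · rintro _ ⟨V, hV, rfl⟩ R hR
    exact (h.sq V hV R (hM R hR)).mono (fun m hm => ⟨hm, M.zsmul_mem hR m⟩)

lemma BasM.all {ι : Type} [Finite ι] [Nonempty ι]
    {𝓤 : ι → Set (Set (A.Pt (AlgebraicClosure K)))} (h : ∀ i, BasM M (𝓤 i)) :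
    BasM M {U | ∃ V : ι → Set (A.Pt (AlgebraicClosure K)), (∀ i, V i ∈ 𝓤 i) ∧
      U = ⋂ i, V i} := by
  refine ⟨⟨?_, ?_, ?_, ?_⟩, ?_, ?_⟩
  · choose V hV using fun i => (h i).bas.ne
    exact ⟨_, V, hV, rfl⟩
  · rintro _ ⟨V, hV, rfl⟩
    exact Set.mem_iInter.2 (fun i => (h i).bas.zero _ (hV i))
  · rintro _ ⟨V, hV, rfl⟩
    choose V' hV' h' using fun i => (h i).bas.sub _ (hV i)
    refine ⟨_, ⟨V', hV', rfl⟩, fun R hR R' hR' => Set.mem_iInter.2 (fun i => ?_)⟩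
    exact h' i R (Set.mem_iInter.1 hR i) R' (Set.mem_iInter.1 hR' i)
  · rintro _ ⟨V, hV, rfl⟩ _ ⟨V', hV', rfl⟩
    choose V2 hV2 h2 using fun i => (h i).bas.inter _ (hV i) _ (hV' i)
    refine ⟨_, ⟨V2, hV2, rfl⟩, fun R hR => ⟨Set.mem_iInter.2 (fun i => ?_),
      Set.mem_iInter.2 (fun i => ?_)⟩⟩
    · exact (h2 i (Set.mem_iInter.1 hR i)).1
    · exact (h2 i (Set.mem_iInter.1 hR i)).2
  · rintro _ ⟨V, hV, rfl⟩ R hR
    obtain ⟨i⟩ := ‹Nonempty ι›
    exact (h i).sub _ (hV i) (Set.mem_iInter.1 hR i)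
  · rintro _ ⟨V, hV, rfl⟩ R hR
    refine (Sq.iInter (fun i => (h i).sq _ (hV i) R hR)).mono (fun m hm => ?_)
    exact Set.mem_iInter.2 (fun i => Set.mem_iInter.1 hm i)

end bas

section main

variable {K : Type} [Field K] [NumberField K] {n s N : ℕ} {A : AbVar K n} {E : EndAlg A}
  {T : Torus K s} {D : Tors T (fun _ : Fin 1 => A)} {G : Type} [Group G] {X : RMapT D N}
  {S : GActT D G}

/-- the polynomials which vanish at the images of the points `(v, P + e Q)` -/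
def ZIU (E : EndAlg A) (X : RMapT D N) (P : A.Pt (AlgebraicClosure K)) (e : E.R) :
    Set (MvPolynomial (Fin N) K) :=
  {f | ∀ (v : TpB K s) (Q : A.Pt (AlgebraicClosure K)) (z : Fin N → AlgebraicClosure K),
    ImgT X.Fam v (fun _ => P + E.act e Q) z → ∀ a : AlgebraicClosure K, aeval (a • z) f = 0}

/-- The local Zariski closure at several places contains the images of all the points
`(v, P + e Q)`. -/
theorem locU (hDen : S_DEN) (hSml : S_SML) (Y : LinG E S)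
    (hX : IsQuotT X S) {ι : Type} [Finite ι] [Nonempty ι]
    (L : ι → Type) [∀ i, NontriviallyNormedField (L i)] [∀ i, CompleteSpace (L i)]
    (σ : ∀ i, K →+* L i) (hσ : ∀ i, DenseRange (σ i))
    (f : MvPolynomial (Fin N) K) {U : ∀ i, Set (Fin N → L i)} (hU : ∀ i, IsOpen (U i))
    (h0 : ∀ i, (0 : Fin N → L i) ∉ U i)
    (hf : ∀ y : Fin N → K, y ≠ 0 → (∀ g ∈ X.eqX, eval y g = 0) → (∃ h ∈ X.eqW, eval y h ≠ 0) →
      (∀ i, ∃ c : L i, c ≠ 0 ∧ (fun j => c * σ i (y j)) ∈ U i) → ∀ a : K, eval (a • y) f = 0)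
    (u : TpB K s) (P : PtsB (fun _ : Fin 1 => A)) (y : Fin N → K) (hy : ImgT X.Fam u P (up y))
    (ho : Off X.eqW (up y)) (hc0 : ∀ i, ∃ c : L i, (fun j => c * σ i (y j)) ∈ U i) (e : E.R)
    (he : ∀ β ∈ an Y u P, β * (e : E.S) = 0) : f ∈ ZIU E X (P 0) e := by
  classical
  choose c0 hc0 using hc0
  obtain ⟨F, hF1, hF2, hB, hXF, -⟩ := big_exists X u P P
  set ω := Module.finBasis K F with hω
  obtain ⟨C0, hC0, s0, hs0, hCs0⟩ := ValT.exists_ne hy
  have ho' := ho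
  obtain ⟨g0, hg0, hg0'⟩ := ho'
  obtain ⟨δ0, hδ0⟩ := X.homW g0 hg0
  obtain ⟨j0, hj0⟩ := Function.ne_iff.1 (ValT.ne_zero hy)
  have hmul : ∀ w : Fin s ⊕ Fin 1 → Fin n → AlgebraicClosure K,
      ev (C0 j0 * aeval C0 g0) w = ev (C0 j0) w * aeval (fun c => ev (C0 c) w) g0 := by
    intro w
    rw [← ev_aevalT]
    unfold ev
    rw [map_mul]
  have hMH0 : MH (fun j => X.d j + δ0 * X.d j) (C0 j0 * aeval C0 g0) :=
    MH_mul (X.Fam_hom C0 hC0 j0) (MH_aevalT hδ0 C0 (X.Fam_hom C0 hC0))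
  have hne0 : ev (C0 j0 * aeval C0 g0)
      (crT (A := fun _ : Fin 1 => A) (fun i => (u i : AlgebraicClosure K)) P) ≠ 0 := by
    rw [hmul, hCs0, aeval_smul' hδ0]
    refine mul_ne_zero ?_ (mul_ne_zero (pow_ne_zero _ hs0) hg0')
    rw [congrFun hCs0 j0]
    exact mul_ne_zero hs0 hj0
  choose ε 𝓤 V hε hBas hV hnear using fun i => placeC hX hy ho F hXF hB ω (σ i)
    (hσ i) (hU i) (h0 i) (hc0 i) hMH0 hne0
  have hinf := small_inf hSml L σ hσ ε hε
  have hBM : ∀ i, BasM (Mo Y u P) {U | ∃ V ∈ 𝓤 i 0, U = V ∩ (Mo Y u P)} := fun i =>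
    (hBas i 0).toM (fun R hR => Mo_fld Y hB hR)
  have hBall := BasM.all hBM
  have hW2 : (⋂ i, (V i 0 ∩ (Mo Y u P : Set (A.Pt (AlgebraicClosure K))))) ∈
      {U | ∃ V : ι → Set (A.Pt (AlgebraicClosure K)),
        (∀ i, V i ∈ {U | ∃ V ∈ 𝓤 i 0, U = V ∩ (Mo Y u P)}) ∧ U = ⋂ i, V i} :=
    ⟨_, fun i => ⟨V i 0, hV i 0, rfl⟩, rfl⟩
  obtain ⟨Z, H, hZ, hHZ, ⟨W0, hW0, hVH⟩, hHg⟩ := closureP hBall.bas
  -- the image of `e` is in `H`
  have heH : ∀ Q, E.act e Q ∈ H := by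
    obtain ⟨β, m, hm, hβ1, hβ2⟩ := E.poinc Z hZ H hHZ
    have hβ : (β : E.S) ∈ an Y u P := by
      rw [mem_an]
      intro R hR
      obtain ⟨k, hk, hk'⟩ := (hBall.sq _ hW0 R hR).exists_ne
      have h1 : k • R ∈ H := hVH hk'
      have h2 := hβ1 _ h1
      rw [map_zsmul] at h2
      refine ⟨m * k.natAbs, Nat.mul_pos hm (Int.natAbs_pos.2 hk), ?_⟩
      rw [mul_smul]
      rcases Int.natAbs_eq k with h3 | h3
      · rw [h3, natCast_zsmul] at h2
        exact h2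
      · rw [h3, neg_smul, natCast_zsmul, smul_neg, neg_eq_zero] at h2
        exact h2
    intro Q
    obtain ⟨Q0, hQ0⟩ := A.div (AlgebraicClosure K) Q m hm
    have h3 : E.act β (E.act e Q0) = 0 := by
      rw [← act_mul]
      have : β * e = 0 := Subtype.ext (he _ hβ)
      rw [this, map_zero]
      rfl
    have h4 := hβ2 _ h3
    rw [← map_nsmul] at h4
    have h5 : m • Q0 = Q := hQ0
    rwa [h5] at h4
  -- the translates by the norms and the elements of the twisted group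
  have key0 : ∀ k, ∀ C ∈ X.Fam, ∀ x : Fin s → Fin (Module.finrank K F) → K,
      (∀ j k, x j k ∈ {z : K | ∀ i, ‖σ i z‖ < ε i}) → ∀ a : Tp s F,
      (∀ j, (a j : F) = 1 + ∑ k, x j k • ω k) →
      ∀ R ∈ ⋂ i, (V i 0 ∩ (Mo Y u P : Set (A.Pt (AlgebraicClosure K)))),
      ev (aeval C (homogeneousComponent k f)) (crT (A := fun _ : Fin 1 => A)
        (fun i => ((u * nr hX hy ho F a) i : AlgebraicClosure K))
        (fun b => P b + R)) = 0 := by
    intro k C hC x hx a ha R hR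
    have hn := fun i => hnear i x (fun j k => hx j k i) a ha (fun _ => R) (fun b => by
      have hb : b = 0 := Subsingleton.elim _ _
      subst hb
      exact (Set.mem_iInter.1 hR i).1)
    obtain ⟨i0⟩ := ‹Nonempty ι›
    have hRM : R ∈ Mo Y u P := (Set.mem_iInter.1 hR i0).2
    have hn0 := (hn i0).1
    rw [hmul] at hn0
    have hoff : ∀ x, ImgT X.Fam (u * nr hX hy ho F a) (fun b => P b + R) x →
        Off X.eqW x := by
      intro x hx
      refine ⟨g0, hg0, fun h0 => right_ne_zero_of_mul hn0 ?_⟩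
      obtain ⟨t, ht⟩ := hx.1 C0 hC0
      rw [ht, aeval_smul' hδ0, h0, mul_zero]
    obtain ⟨y', hy', hy'e, hy'v⟩ := ratG hX hy ho (nr hX hy ho F a)
      (fun φ g hg => nr_fix hX hy ho hB a φ hg) (fun _ => R)
      (fun φ g hg b => by
        rw [ln_eq Y]
        exact Mo_sg Y hRM hg) ⟨C0, hC0, j0, left_ne_zero_of_mul hn0⟩ hoff
    have hcU : ∀ i, ∃ c : L i, c ≠ 0 ∧ (fun j => c * σ i (y' j)) ∈ U i :=
      fun i => (hn i).2 y' hy'v
    have h2 : eval y' (homogeneousComponent k f) = 0 :=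
      hom_comp_zero (hf y' hy'.ne_zero hy'e (off_up.1 (hoff _ hy'v)) hcU) k
    obtain ⟨t, ht⟩ := hy'v.1 C hC
    rw [ev_aevalT, ht, aeval_smul' (homogeneousComponent_isHomogeneous k f),
      (eval_up_iff y' _).2 h2, mul_zero]
  have hcr1 : ∀ (w : Fin s → AlgebraicClosure K) (R : A.Pt (AlgebraicClosure K)),
      (fun j => if j = Sum.inr 0 then R.1 else crT (A := fun _ : Fin 1 => A) w P j) =
        crT (A := fun _ : Fin 1 => A) w (fun _ => R) := by
    intro w R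
    funext j
    rcases j with i | b
    · rw [if_neg (by simp)]
      rfl
    · have hb : b = 0 := Subsingleton.elim _ _
      subst hb
      rw [if_pos rfl]
      rfl
  have key : ∀ k, ∀ C ∈ X.Fam, ∀ (v : TpB K s) (Q : A.Pt (AlgebraicClosure K)),
      ev (aeval C (homogeneousComponent k f)) (crT (A := fun _ : Fin 1 => A)
        (fun i => (v i : AlgebraicClosure K)) (fun _ => P 0 + E.act e Q)) = 0 := by
    intro k C hC v Q
    have hMHk := MH_aevalT (homogeneousComponent_isHomogeneous k f) C (X.Fam_hom C hC)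
    have h1 := hDen K F (AlgebraicClosure K) s _ ω (MF hX hy ho F) (MF_one hX hy ho hB) _ hinf
      (fun i => (u i : AlgebraicClosure K)) (tsp (A := fun _ : Fin 1 => A)
        (aeval C (homogeneousComponent k f)) (fun _ => P 0 + E.act e Q))
      (fun x hx hxne => ?_) (fun j => (u j : AlgebraicClosure K)⁻¹ * v j)
      (fun j => mul_ne_zero (inv_ne_zero (u j).ne_zero) (v j).ne_zero)
    · rw [tsp_eval] at h1
      have h2 : (fun i => (u i : AlgebraicClosure K) * ((u i : AlgebraicClosure K)⁻¹ * v i)) =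
          fun i => (v i : AlgebraicClosure K) := by
        funext i
        rw [mul_inv_cancel_left₀ (u i).ne_zero]
      rwa [h2] at h1
    · rw [tsp_eval]
      have h3 : (fun i => (u i : AlgebraicClosure K) * ∏ τ : F ≃ₐ[K] F, ∏ j,
          (algebraMap F (AlgebraicClosure K) (τ (1 + ∑ k, x j k • ω k))) ^
            (MF hX hy ho F τ i j)) = fun i => ((u * nr hX hy ho F
              (fun j => Units.mk0 _ (hxne j))) i : AlgebraicClosure K) := by
        funext i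
        change _ = (u i : AlgebraicClosure K) * ((nr hX hy ho F
          (fun j => Units.mk0 _ (hxne j)) i : (AlgebraicClosure K)ˣ) : AlgebraicClosure K)
        rw [nr_val]
        rfl
      rw [h3]
      set w : Fin s → AlgebraicClosure K := fun i => ((u * nr hX hy ho F
        (fun j => Units.mk0 _ (hxne j))) i : AlgebraicClosure K) with hw
      have h4 := closureP_trans hBall.bas hHg (P 0) hW2
        (spec_hom (Sum.inr 0) (crT (A := fun _ : Fin 1 => A) w P) hMHk) (fun R hR => ?_)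
        _ (heH Q)
      · rw [spec_eval, hcr1] at h4
        exact h4
      · rw [spec_eval, hcr1]
        have h5 := key0 k C hC x hx (fun j => Units.mk0 _ (hxne j)) (fun j => rfl) R hR
        have h6 : (fun b : Fin 1 => P b + R) = fun _ => P 0 + R := by
          funext b
          have hb : b = 0 := Subsingleton.elim _ _
          subst hb
          rfl
        rw [h6] at h5
        exact h5
  rintro v Q z hz a
  refine aeval_of_comp (fun k => ?_) a
  obtain ⟨C, hC, t, ht, hCt⟩ := ValT.exists_ne hz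
  have h1 := key k C hC v Q
  rw [ev_aevalT, hCt, aeval_smul' (homogeneousComponent_isHomogeneous k f)] at h1
  exact (mul_eq_zero.1 h1).resolve_left (pow_ne_zero _ ht)

end main

end Pool.Agent.K1H82.KU
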