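import Pool.Agent.K1H82.KT.Pl

/-!
# The conditions at one place
-/

set_option autoImplicit false
set_option linter.unusedSectionVars false

open MvPolynomial Pool.Agent.TH954.X Pool.Agent.K1H82.KM Filter Topology
open Pool.Agent.K1H82.KQ (PtB GalK cjg OnX sg IsBasP)
open Pool.Agent.K1H82.KA (PtsB GActP ln ln_mul ln_one apP apP_mul apP_one trP_mul trP_one sgP
  mapV_up cenP ln_cen RP exists_ptsE)
open Pool.Agent.K1H82.KR (Off)
open Pool.Agent.K1H82.KS (Sq sq_near)
open Pool.Agent.K1H82.KT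

namespace Pool.Agent.K1H82.KU

/-- a basis of the neighbourhoods of zero of the group of the points over `F` at a place -/
structure BasF {K : Type} [Field K] {n : ℕ} (A : AbVar K n)
    (F : IntermediateField K (AlgebraicClosure K)) (𝓤 : Set (Set (A.Pt (AlgebraicClosure K)))) :
    Prop where
  bas : IsBasP A 𝓤
  fld : ∀ V ∈ 𝓤, ∀ R ∈ V, ∀ c, R.1 c ∈ F
  sq : ∀ V ∈ 𝓤, ∀ R : A.Pt (AlgebraicClosure K), (∀ c, R.1 c ∈ F) → Sq {m : ℤ | m • R ∈ V}

section place

variable {K : Type} [Field K] [NumberField K] {n r s N m : ℕ} {T : Torus K s}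
  {A : Fin r → AbVar K n} {D : Tors T A} {G : Type} [Group G] {X : RMapT D N} {S : GActT D G}
  (hX : IsQuotT X S) {u : TpB K s} {P : PtsB A} {y : Fin N → K} (hy : ImgT X.Fam u P (up y))
  (ho : Off X.eqW (up y)) (F : IntermediateField K (AlgebraicClosure K)) [FiniteDimensional K F]
  [Normal K F]

lemma fix_fld {b : Fin r} {R : (A b).Pt (AlgebraicClosure K)} : (∀ c, R.1 c ∈ F) ↔
    ∀ σ : AlgebraicClosure K ≃ₐ[K] AlgebraicClosure K, (∀ x ∈ F, σ x = x) →
      sg (A b) σ R = R := by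
  have hgal : IsGalois K (AlgebraicClosure K) := inferInstance
  constructor
  · intro h σ hσ
    apply Subtype.ext
    funext c
    exact hσ _ (h c)
  · intro h c
    rw [← InfiniteGalois.fixedField_fixingSubgroup F]
    rw [IntermediateField.mem_fixedField_iff]
    intro σ hσ
    have h2 := h σ (fun x hx => (IntermediateField.mem_fixingSubgroup_iff F σ).1 hσ x hx)
    exact congrArg (fun Q : (A b).Pt (AlgebraicClosure K) => Q.1 c) h2

lemma zero_fld (b : Fin r) : ∀ c, (0 : (A b).Pt (AlgebraicClosure K)).1 c ∈ F :=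
  (fix_fld F).2 (fun σ _ => map_zero _)

lemma sub_fld (b : Fin r) {R R' : (A b).Pt (AlgebraicClosure K)} (h : ∀ c, R.1 c ∈ F)
    (h' : ∀ c, R'.1 c ∈ F) : ∀ c, (R - R').1 c ∈ F :=
  (fix_fld F).2 (fun σ hσ => by
    rw [map_sub, (fix_fld F).1 h σ hσ, (fix_fld F).1 h' σ hσ])

lemma zsmul_fld (b : Fin r) {R : (A b).Pt (AlgebraicClosure K)} (h : ∀ c, R.1 c ∈ F) (m : ℤ) :
    ∀ c, (m • R).1 c ∈ F :=
  (fix_fld F).2 (fun σ hσ => by rw [map_zsmul, (fix_fld F).1 h σ hσ])

/-- the points near `(u, P)` -/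
theorem placeC (hXF : X.F ≤ F) (hB : Big D u P F) (ω : Module.Basis (Fin m) K F)
    {L : Type} [NontriviallyNormedField L] [CompleteSpace L] (σ : K →+* L) (hσ : DenseRange σ)
    {U : Set (Fin N → L)} (hU : IsOpen U) (h0 : (0 : Fin N → L) ∉ U)
    {c0 : L} (hc0 : (fun i => c0 * σ (y i)) ∈ U)
    {g0 : MvPolynomial ((Fin s ⊕ Fin r) × Fin n) X.F} {δ : Fin s ⊕ Fin r → ℕ} (hg0 : MH δ g0)
    (hne : ev g0 (crT (A := A) (fun i => (u i : AlgebraicClosure K)) P) ≠ 0) :
    ∃ (ε : ℝ) (𝓤 : ∀ b, Set (Set ((A b).Pt (AlgebraicClosure K))))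
      (V : ∀ b, Set ((A b).Pt (AlgebraicClosure K))), 0 < ε ∧ (∀ b, BasF (A b) F (𝓤 b)) ∧
      (∀ b, V b ∈ 𝓤 b) ∧ ∀ x : Fin s → Fin m → K, (∀ j k, ‖σ (x j k)‖ < ε) →
      ∀ a : Tp s F, (∀ j, (a j : F) = 1 + ∑ k, x j k • ω k) →
      ∀ R : Pts A (AlgebraicClosure K), (∀ b, R b ∈ V b) →
        ev g0 (crT (A := A) (fun i => ((u * nr hX hy ho F a) i : AlgebraicClosure K))
          (fun b => P b + R b)) ≠ 0 ∧
        ∀ y' : Fin N → K, ImgT X.Fam (u * nr hX hy ho F a) (fun b => P b + R b) (up y') →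
          ∃ c : L, c ≠ 0 ∧ (fun i => c * σ (y' i)) ∈ U := by
  classical
  have hprop : ProperSpace L := W279.Tri.properSpace_of_denseRange σ hσ
  let _ : Algebra K L := σ.toAlgebra
  let φ : AlgebraicClosure K →ₐ[K] AlgebraicClosure L := IsAlgClosed.lift
  set E : IntermediateField L (AlgebraicClosure L) := IntermediateField.adjoin L
    (Set.range fun k => φ (ω k : AlgebraicClosure K)) with hE
  have hfin : FiniteDimensional L E := by
    have : Finite (Set.range fun k => φ (ω k : AlgebraicClosure K)) := Set.finite_range _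
    refine IntermediateField.finiteDimensional_adjoin (fun x _ => ?_)
    exact (AlgebraicClosure.isAlgebraic L).isIntegral.isIntegral x
  let _ : TopologicalSpace E := moduleTopology L E
  have : IsModuleTopology L E := ⟨rfl⟩
  have htr : IsTopologicalRing E := topring L E
  have hmem : ∀ x : F, φ (x : AlgebraicClosure K) ∈ E := by
    intro x
    have h1 : φ (x : AlgebraicClosure K) =
        ∑ k, algebraMap L (AlgebraicClosure L) (σ (ω.repr x k)) *
          φ (ω k : AlgebraicClosure K) := by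
      conv_lhs => rw [← ω.sum_repr x]
      rw [IntermediateField.coe_sum, map_sum]
      refine Finset.sum_congr rfl (fun k _ => ?_)
      rw [IntermediateField.coe_smul, map_smul, Algebra.smul_def]
      rfl
    rw [h1]
    exact sum_mem fun k _ => E.mul_mem (E.algebraMap_mem _)
      (IntermediateField.subset_adjoin L _ ⟨k, rfl⟩)
  set ψ : E →ₐ[K] AlgebraicClosure L := E.val.restrictScalars K with hψ
  -- the homomorphism from `F` to `E`
  let θ : F →ₐ[K] E := (φ.comp F.val).codRestrict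
    (IntermediateField.restrictScalars K E).toSubalgebra (fun x => hmem x)
  have hθ : ∀ x : F, ψ (θ x) = φ (x : AlgebraicClosure K) := fun x => rfl
  let _ : Algebra X.F E := (θ.toRingHom.comp (IntermediateField.inclusion hXF).toRingHom).toAlgebra
  obtain ⟨P', hP'⟩ := exists_ptsE φ P E (fun b c => hmem ⟨(P b).1 c, hB.ab b c⟩)
  have hpt : ∀ b (R : (A b).Pt (AlgebraicClosure K)), (∀ c, R.1 c ∈ F) →
      ∃ R' : (A b).Pt E, mapPt (A b) ψ R' = mapPt (A b) φ R := by
    intro b R hR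
    obtain ⟨R', hR'⟩ := exists_ptsE (A := fun _ : Fin 1 => A b) φ (fun _ => R) E
      (fun _ c => hmem ⟨R.1 c, hR c⟩)
    exact ⟨R' 0, hR' 0⟩
  set u' : Fin s → E := fun i => θ ⟨(u i : AlgebraicClosure K), hB.tor i⟩ with hu'
  -- evaluation
  have hev : ∀ (f : MvPolynomial ((Fin s ⊕ Fin r) × Fin n) X.F) (v : Fin s ⊕ Fin r → Fin n → E)
      (w : Fin s ⊕ Fin r → Fin n → AlgebraicClosure K), (∀ i c, ψ (v i c) = φ (w i c)) →
      ψ (ev f v) = φ (ev f w) := by
    intro f v w hvw
    have h1 := ev_hom (ψ : E →+* AlgebraicClosure L) f v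
    have h2 := ev_hom (φ : AlgebraicClosure K →+* AlgebraicClosure L) f w
    have h3 : (ψ : E →+* AlgebraicClosure L).comp (algebraMap X.F E) =
        (φ : AlgebraicClosure K →+* AlgebraicClosure L).comp
          (algebraMap X.F (AlgebraicClosure K)) := RingHom.ext fun x => rfl
    have h4 : (fun p : (Fin s ⊕ Fin r) × Fin n => (ψ : E →+* AlgebraicClosure L) (v p.1 p.2)) =
        fun p => (φ : AlgebraicClosure K →+* AlgebraicClosure L) (w p.1 p.2) :=
      funext fun p => hvw p.1 p.2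
    rw [h3, h4] at h1
    exact h1.trans h2.symm
  have hψi : Function.Injective ψ := ψ.toRingHom.injective
  have hφi : Function.Injective φ := φ.toRingHom.injective
  have hnz : ∀ (f : MvPolynomial ((Fin s ⊕ Fin r) × Fin n) X.F) (v : Fin s ⊕ Fin r → Fin n → E)
      (w : Fin s ⊕ Fin r → Fin n → AlgebraicClosure K), (∀ i c, ψ (v i c) = φ (w i c)) →
      (ev f v ≠ 0 ↔ ev f w ≠ 0) := by
    intro f v w hvw
    rw [not_iff_not, ← map_eq_zero_iff ψ hψi, hev f v w hvw, map_eq_zero_iff φ hφi]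
  -- scalars
  have hsc : ∀ (v : Fin N → E) (s0 : AlgebraicClosure K) (z : Fin N → K), z ≠ 0 →
      (∀ i, ψ (v i) = φ (s0 * up z i)) → ∃ s1 : E, ψ s1 = φ s0 ∧
        ∀ i, v i = s1 * algebraMap K E (z i) := by
    intro v s0 z hz hv
    obtain ⟨i1, hi1⟩ := Function.ne_iff.1 hz
    have h1 : ψ (v i1 * algebraMap K E (z i1)⁻¹) = φ s0 := by
      rw [map_mul, hv]
      change φ (s0 * algebraMap K (AlgebraicClosure K) (z i1)) *
        ψ (algebraMap K E (z i1)⁻¹) = φ s0
      rw [AlgHom.commutes, map_mul, AlgHom.commutes, mul_assoc, ← map_mul,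
        mul_inv_cancel₀ hi1, map_one, mul_one]
    refine ⟨_, h1, fun i => hψi ?_⟩
    rw [hv, map_mul φ, map_mul ψ (v i1 * _) _, h1, AlgHom.commutes ψ]
    congr 1
    exact AlgHom.commutes φ (z i)
  -- coordinates
  have hcr : ∀ (v : Fin s → E) (w : Fin s → AlgebraicClosure K) (Q' : Pts A E)
      (Q : Pts A (AlgebraicClosure K)), (∀ i, ψ (v i) = φ (w i)) →
      (∀ b, mapPt (A b) ψ (Q' b) = mapPt (A b) φ (Q b)) →
      ∀ i c, ψ (crT (A := A) v Q' i c) = φ (crT (A := A) w Q i c) := by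
    intro v w Q' Q hvw hQ i c
    rcases i with i | b
    · change ψ (if c.1 = 0 then 1 else if c.1 = 1 then v i else 0) =
        φ (if c.1 = 0 then 1 else if c.1 = 1 then w i else 0)
      split_ifs
      · rw [map_one, map_one]
      · exact hvw i
      · rw [map_zero, map_zero]
    · exact congrArg (fun R : (A b).Pt (AlgebraicClosure L) => R.1 c) (hQ b)
  -- the conjugates of the elements `1 + ∑ x_k ω_k`
  set aE : (Fin s → Fin m → L) → (F ≃ₐ[K] F) → Fin s → E := fun x τ j =>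
    1 + ∑ k, algebraMap L E (x j k) * θ (τ (ω k)) with haE
  have haEc : ∀ τ j, Continuous fun x => aE x τ j := by
    intro τ j
    refine continuous_const.add (continuous_finsetSum _ (fun k _ => ?_))
    refine Continuous.mul ?_ continuous_const
    have hc : Continuous (algebraMap L E) :=
      IsModuleTopology.continuous_of_linearMap (Algebra.linearMap L E)
    exact hc.comp ((continuous_apply k).comp (continuous_apply j))
  have haE0 : ∀ τ j, aE 0 τ j = 1 := by
    intro τ j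
    simp only [haE, Pi.zero_apply, map_zero, zero_mul, Finset.sum_const_zero, add_zero]
  have haEx : ∀ (x : Fin s → Fin m → K) τ j, aE (fun j k => σ (x j k)) τ j =
      θ (τ (1 + ∑ k, x j k • ω k)) := by
    intro x τ j
    simp only [haE, map_add, map_one, map_sum]
    congr 1
    refine Finset.sum_congr rfl (fun k _ => ?_)
    rw [Algebra.smul_def, map_mul, map_mul, AlgEquiv.commutes, AlgHom.commutes,
      IsScalarTower.algebraMap_apply K L E]
    rfl
  set nu : (Fin s → Fin m → L) → Fin s → E := fun x i =>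
    u' i * ∏ τ : F ≃ₐ[K] F, ∏ j, (aE x τ j) ^ (MF hX hy ho F τ i j).toNat with hnu
  set de : (Fin s → Fin m → L) → Fin s → E := fun x i =>
    ∏ τ : F ≃ₐ[K] F, ∏ j, (aE x τ j) ^ (-(MF hX hy ho F τ i j)).toNat with hde
  have hnuc : ∀ i, Continuous fun x => nu x i := fun i =>
    continuous_const.mul (continuous_finsetProd _ (fun τ _ => continuous_finsetProd _
      (fun j _ => (haEc τ j).pow _)))
  have hdec : ∀ i, Continuous fun x => de x i := fun i =>
    continuous_finsetProd _ (fun τ _ => continuous_finsetProd _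
      (fun j _ => (haEc τ j).pow _))
  have hcoc : Continuous fun z : (Fin s → Fin m → L) × (Fin r → Fin n → E) =>
      (Sum.elim (fun i => bv n (de z.1 i) (nu z.1 i)) z.2 : Fin s ⊕ Fin r → Fin n → E) := by
    refine continuous_pi fun i => ?_
    rcases i with i | b
    · refine continuous_pi fun c => ?_
      change Continuous fun z : (Fin s → Fin m → L) × (Fin r → Fin n → E) =>
        if c.1 = 0 then de z.1 i else if c.1 = 1 then nu z.1 i else 0
      split_ifs
      · exact (hdec i).comp continuous_fst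
      · exact (hnuc i).comp continuous_fst
      · exact continuous_const
    · exact (continuous_apply b).comp continuous_snd
  have hco0 : (Sum.elim (fun i => bv n (de 0 i) (nu 0 i)) (crds P') :
      Fin s ⊕ Fin r → Fin n → E) = crT (A := A) u' P' := by
    have h1 : ∀ i, de 0 i = 1 := fun i => by
      simp only [hde, haE0, one_pow, Finset.prod_const_one]
    have h2 : ∀ i, nu 0 i = u' i := fun i => by
      simp only [hnu, haE0, one_pow, Finset.prod_const_one, mul_one]
    funext i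
    rcases i with i | b
    · change bv n (de 0 i) (nu 0 i) = tv n (u' i)
      rw [h1, h2]
      rfl
    · rfl
  -- the tuple of forms
  obtain ⟨C0, hC0, s0, hs0, hCs0⟩ := ValT.exists_ne hy
  have hy0 : y ≠ 0 := by
    rintro rfl
    exact ValT.ne_zero hy (funext fun _ => map_zero _)
  obtain ⟨s1, hs1, hs1'⟩ := hsc (fun i => ev (C0 i) (crT (A := A) u' P')) s0 y hy0 (fun i => by
    rw [hev (C0 i) _ _ (hcr u' (fun i => (u i : AlgebraicClosure K)) P' P (fun i => hθ _) hP')]
    exact congrArg φ (congrFun hCs0 i))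
  have hs1n : s1 ≠ 0 := by
    rintro rfl
    rw [map_zero] at hs1
    exact hs0 (hφi (by rw [← hs1, map_zero]))
  obtain ⟨ℓ, hℓ⟩ := LinearMap.exists_leftInverse_of_injective (Algebra.linearMap L E)
    (LinearMap.ker_eq_bot.2 (algebraMap L E).injective)
  have hℓ' : ∀ (z : L) (e : E), ℓ (e * algebraMap L E z) = z * ℓ e := by
    intro z e
    rw [mul_comm, ← Algebra.smul_def, map_smul, smul_eq_mul]
  have hℓ1 : ∀ z : L, ℓ (algebraMap L E z) = z := fun z => LinearMap.congr_fun hℓ z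
  have hℓc : Continuous ℓ := IsModuleTopology.continuous_of_linearMap ℓ
  have ht2 := t2E L E
  have hKE : ∀ z : K, algebraMap K E z = algebraMap L E (σ z) := fun z =>
    IsScalarTower.algebraMap_apply K L E z
  set Θ : (Fin s → Fin m → L) × (Fin r → Fin n → E) → (Fin N → L) × E := fun z =>
    (fun i => c0 * ℓ (s1⁻¹ * ev (C0 i) (Sum.elim (fun i => bv n (de z.1 i) (nu z.1 i)) z.2)),
      ev g0 (Sum.elim (fun i => bv n (de z.1 i) (nu z.1 i)) z.2)) with hΘ
  have hΘc : Continuous Θ := Continuous.prodMk (continuous_pi fun i => continuous_const.mul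
    (hℓc.comp (continuous_const.mul ((cont_evE (C0 i)).comp hcoc)))) ((cont_evE g0).comp hcoc)
  have hΘ0 : U ×ˢ {e : E | e ≠ 0} ∈ 𝓝 (Θ (0, crds P')) := by
    refine prod_mem_nhds (hU.mem_nhds ?_) (isOpen_ne.mem_nhds ?_)
    · have h1 : (Θ (0, crds P')).1 = fun i => c0 * σ (y i) := by
        funext i
        change c0 * ℓ (s1⁻¹ * ev (C0 i) (Sum.elim (fun i => bv n (de 0 i) (nu 0 i)) (crds P'))) = _
        rw [hco0, hs1', inv_mul_cancel_left₀ hs1n, hKE, hℓ1]
      change (Θ (0, crds P')).1 ∈ U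
      rw [h1]
      exact hc0
    · change ev g0 (Sum.elim (fun i => bv n (de 0 i) (nu 0 i)) (crds P')) ≠ 0
      rw [hco0]
      exact (hnz g0 _ _ (hcr u' (fun i => (u i : AlgebraicClosure K)) P' P
        (fun i => hθ _) hP')).2 hne
  obtain ⟨Zn, hZn, W, hW, hnear⟩ := split_near (L := L) A P' hΘc 0 hΘ0
  obtain ⟨ε, hε, hball⟩ := Metric.mem_nhds_iff.1 hZn
  set V : ∀ b, Set (Fin n → E) → Set ((A b).Pt (AlgebraicClosure K)) := fun b W =>
    {R | (∀ c, R.1 c ∈ F) ∧ ∃ R' : (A b).Pt E, mapPt (A b) ψ R' = mapPt (A b) φ R ∧ Nr W R'.1}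
    with hV
  have hmz : ∀ b, mapPt (A b) ψ (0 : (A b).Pt E) =
      mapPt (A b) φ (0 : (A b).Pt (AlgebraicClosure K)) := by
    intro b
    change mapH (A b) ψ 0 = mapH (A b) φ 0
    rw [map_zero, map_zero]
  have hms : ∀ b (R R2 : (A b).Pt (AlgebraicClosure K)) (R' R2' : (A b).Pt E),
      mapPt (A b) ψ R' = mapPt (A b) φ R → mapPt (A b) ψ R2' = mapPt (A b) φ R2 →
      mapPt (A b) ψ (R' - R2') = mapPt (A b) φ (R - R2) := by
    intro b R R2 R' R2' h1 h2
    rw [(map_add_sub (A b) ψ R' R2').2, (map_add_sub (A b) φ R R2).2, h1, h2]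
  have hbas : ∀ b, IsBasP (A b) {U | ∃ W ∈ 𝓝 (0 : (A b).Pt E).1, U = V b W} := by
    intro b
    refine ⟨⟨_, Set.univ, univ_mem, rfl⟩, ?_, ?_, ?_⟩
    · rintro _ ⟨W, hW, rfl⟩
      refine ⟨fun c => ?_, 0, hmz b, 1, one_ne_zero, by
        rw [one_smul]
        exact mem_of_mem_nhds hW⟩
      exact zero_fld F b c
    · rintro _ ⟨W, hW, rfl⟩
      obtain ⟨W1, hW1, W2, hW2, h12⟩ := cont_sub (L := L) (A b) 0 0 (W := W)
        (by rwa [sub_zero])
      refine ⟨_, ⟨W1 ∩ W2, inter_mem hW1 hW2, rfl⟩, ?_⟩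
      rintro R ⟨hR, R', hR', hR2⟩ R1 ⟨hR1, R1', hR1', hR12⟩
      exact ⟨sub_fld F b hR hR1, R' - R1', hms b _ _ _ _ hR' hR1',
        h12 R' R1' (hR2.mono Set.inter_subset_left) (hR12.mono Set.inter_subset_right)⟩
    · rintro _ ⟨W, hW, rfl⟩ _ ⟨W', hW', rfl⟩
      refine ⟨_, ⟨W ∩ W', inter_mem hW hW', rfl⟩, ?_⟩
      rintro R ⟨hR, R', hR', hR2⟩
      exact ⟨⟨hR, R', hR', hR2.mono Set.inter_subset_left⟩,
        ⟨hR, R', hR', hR2.mono Set.inter_subset_right⟩⟩
  refine ⟨ε, fun b => {U | ∃ W ∈ 𝓝 (0 : (A b).Pt E).1, U = V b W}, fun b => V b (W b), hε,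
    fun b => ⟨hbas b, ?_, ?_⟩, fun b => ⟨W b, hW b, rfl⟩, fun x hx a ha R hR => ?_⟩
  · rintro _ ⟨W, hW, rfl⟩ R hR
    exact hR.1
  · rintro _ ⟨W, hW, rfl⟩ R hR
    obtain ⟨R', hR'⟩ := hpt b R hR
    refine (sq_near (L := L) (A b) R' hW).mono (fun m hm => ?_)
    refine ⟨zsmul_fld F b hR m, m • R', ?_, hm⟩
    change mapH (A b) ψ (m • R') = mapH (A b) φ (m • R)
    rw [map_zsmul, map_zsmul, mapH_apply, mapH_apply, hR']
  choose hRF R' hR' hRn using hR
  obtain ⟨t, ht, hnear1, hnear2⟩ := hnear (fun j k => σ (x j k)) (hball (by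
    rw [mem_ball_zero_iff, pi_norm_lt_iff hε]
    intro j
    rw [pi_norm_lt_iff hε]
    exact hx j)) R' hRn
  have hae : ∀ τ j, aE (fun j k => σ (x j k)) τ j = θ (τ (a j : F)) := by
    intro τ j
    rw [haEx, ha]
  have hne0 : ∀ (τ : F ≃ₐ[K] F) j, θ (τ (a j : F)) ≠ 0 := by
    intro τ j h1
    have h2 : τ (a j : F) = 0 := θ.toRingHom.injective (h1.trans (map_zero θ).symm)
    exact (a j).ne_zero (τ.injective (h2.trans (map_zero τ).symm))
  have hde0 : ∀ i, de (fun j k => σ (x j k)) i ≠ 0 := by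
    intro i
    refine Finset.prod_ne_zero_iff.2 (fun τ _ => Finset.prod_ne_zero_iff.2 (fun j _ =>
      pow_ne_zero _ ?_))
    rw [hae]
    exact hne0 τ j
  have hquo : ∀ i, nu (fun j k => σ (x j k)) i / de (fun j k => σ (x j k)) i =
      u' i * ∏ τ : F ≃ₐ[K] F, ∏ j, (θ (τ (a j : F))) ^ (MF hX hy ho F τ i j) := by
    intro i
    simp only [hnu, hde, hae]
    rw [mul_div_assoc, ← Finset.prod_div_distrib]
    congr 1
    refine Finset.prod_congr rfl (fun τ _ => ?_)
    rw [← Finset.prod_div_distrib]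
    exact Finset.prod_congr rfl (fun j _ => zpow_toNat (hne0 τ j) _)
  have hψq : ∀ i, ψ (nu (fun j k => σ (x j k)) i / de (fun j k => σ (x j k)) i) =
      φ ((u * nr hX hy ho F a) i : AlgebraicClosure K) := by
    intro i
    have h1 : (((u * nr hX hy ho F a) i : (AlgebraicClosure K)ˣ) : AlgebraicClosure K) =
        (u i : AlgebraicClosure K) * ((nr hX hy ho F a i : (AlgebraicClosure K)ˣ) :
          AlgebraicClosure K) := rfl
    rw [hquo, h1, nr_val, map_mul, map_mul, map_prod, map_prod]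
    congr 1
    refine Finset.prod_congr rfl (fun τ _ => ?_)
    rw [map_prod, map_prod]
    refine Finset.prod_congr rfl (fun j _ => ?_)
    rw [map_zpow₀, map_zpow₀]
    congr 1
  set v : Fin s → E := fun i => nu (fun j k => σ (x j k)) i / de (fun j k => σ (x j k)) i with hv
  set ti : Fin s ⊕ Fin r → E := Sum.elim (fun i => de (fun j k => σ (x j k)) i) t with hti
  have hel : (Sum.elim (fun i => bv n (de (fun j k => σ (x j k)) i)
      (nu (fun j k => σ (x j k)) i)) (fun b => t b • (P' b + R' b).1) :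
        Fin s ⊕ Fin r → Fin n → E) =
      fun j => ti j • crT (A := A) v (fun b => P' b + R' b) j := by
    funext j
    rcases j with i | b
    · exact bv_eq n (hde0 i)
    · rfl
  have hQ : ∀ b, mapPt (A b) ψ (P' b + R' b) = mapPt (A b) φ (P b + R b) := by
    intro b
    change mapH (A b) ψ (P' b + R' b) = mapH (A b) φ (P b + R b)
    rw [map_add, map_add, mapH_apply, mapH_apply, mapH_apply, mapH_apply, hP', hR']
  have hco := hcr v (fun i => ((u * nr hX hy ho F a) i : AlgebraicClosure K))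
    (fun b => P' b + R' b) (fun b => P b + R b) hψq hQ
  refine ⟨?_, fun y' hy' => ?_⟩
  · have h1 : ev g0 (Sum.elim (fun i => bv n (de (fun j k => σ (x j k)) i)
      (nu (fun j k => σ (x j k)) i)) (fun b => t b • (P' b + R' b).1)) ≠ 0 := hnear2
    rw [hel, ev_smul hg0] at h1
    exact (hnz g0 _ _ hco).1 (right_ne_zero_of_mul h1)
  · have hy'0 : y' ≠ 0 := by
      rintro rfl
      exact ValT.ne_zero hy' (funext fun _ => map_zero _)
    obtain ⟨s', hs'⟩ := hy'.1 C0 hC0
    obtain ⟨s2, hs2, hs2'⟩ := hsc (fun i => ev (C0 i) (crT (A := A) v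
      (fun b => P' b + R' b))) s' y' hy'0 (fun i => by
        rw [hev (C0 i) _ _ hco]
        exact congrArg φ (congrFun hs' i))
    have h1 : (fun i => c0 * ℓ (s1⁻¹ * ev (C0 i) (Sum.elim (fun i =>
      bv n (de (fun j k => σ (x j k)) i) (nu (fun j k => σ (x j k)) i))
        (fun b => t b • (P' b + R' b).1)))) ∈ U := hnear1
    have h2 : (fun i => c0 * ℓ (s1⁻¹ * ev (C0 i) (Sum.elim (fun i =>
      bv n (de (fun j k => σ (x j k)) i) (nu (fun j k => σ (x j k)) i))
        (fun b => t b • (P' b + R' b).1)))) =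
        fun i => (c0 * ℓ (s1⁻¹ * ((∏ j, ti j ^ X.d j) * s2))) * σ (y' i) := by
      funext i
      rw [hel, ev_smul (X.Fam_hom C0 hC0 i), hs2', hKE, ← mul_assoc (∏ j, ti j ^ X.d j),
        ← mul_assoc s1⁻¹, hℓ']
      ring
    rw [h2] at h1
    refine ⟨_, ?_, h1⟩
    intro h0'
    apply h0
    have h8 : (fun i => (c0 * ℓ (s1⁻¹ * ((∏ j, ti j ^ X.d j) * s2))) * σ (y' i)) =
        (0 : Fin N → L) := by
      funext i
      rw [h0', zero_mul]
      rfl
    rw [h8] at h1
    exact h1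

end place

end Pool.Agent.K1H82.KU
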