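import Pool.Agent.K1H82.KU.Gen
import Pool.Agent.K1H82.KU.Pl

/-!
# Rationality
-/

set_option autoImplicit false
set_option linter.unusedSectionVars false

open MvPolynomial Pool.Agent.TH954.X Pool.Agent.K1H82.KM
open Pool.Agent.K1H82.KQ (EndAlg PtB GalK cjg OnX sg)
open Pool.Agent.K1H82.KA (PtsB GActP ln ln_mul ln_one apP apP_mul apP_one trP_mul trP_one sgP
  mapV_up cenP ln_cen RP)
open Pool.Agent.K1H82.KR (Off act_mul act_one)
open Pool.Agent.K1H82.KT

namespace Pool.Agent.K1H82.KU

section rat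

variable {K : Type} [Field K] [CharZero K] {n r s N : ℕ} {T : Torus K s} {A : Fin r → AbVar K n}
  {D : Tors T A} {G : Type} [Group G] {X : RMapT D N} {S : GActT D G} (hX : IsQuotT X S) {u : TpB K s}
  {P : PtsB A} {y : Fin N → K} (hy : ImgT X.Fam u P (up y)) (ho : Off X.eqW (up y))

include hX hy ho in
/-- The images of the points `(u v, P + R)`, with points `v` and `R` of the twisted torus and the
twisted abelian varieties, are rational, if they are outside `W`. -/
theorem ratG (v : TpB K s)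
    (hv : ∀ (φ : GalK K) (g : G), Moves S g u P (twT D φ u) (twA D φ P) →
      cjT T φ v = mon (S.linT g) v) (R : Pts A (AlgebraicClosure K))
    (hR : ∀ (φ : GalK K) (g : G), Moves S g u P (twT D φ u) (twA D φ P) →
      ∀ b, sg (A b) φ (R b) = ln S.act g b (R b))
    (hd : DefT X.Fam (u * v) (fun b => P b + R b))
    (ho' : ∀ x, ImgT X.Fam (u * v) (fun b => P b + R b) x → Off X.eqW x) :
    ∃ y' : Fin N → K, Normed y' ∧ (∀ g ∈ X.eqX, eval y' g = 0) ∧
      ImgT X.Fam (u * v) (fun b => P b + R b) (up y') := by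
  obtain ⟨x, ⟨hx0, hxe⟩, hx⟩ := X.total (u * v) (fun b => P b + R b) hd
  obtain ⟨t, x1, ht, hx1, rfl⟩ := exists_normed hx0
  have hxe1 : ∀ g ∈ X.eqX, aeval x1 g = 0 := by
    intro g hg
    obtain ⟨d, hd⟩ := X.homX g hg
    have h1 := hxe g hg
    rw [aeval_smul' hd] at h1
    exact (mul_eq_zero.1 h1).resolve_left (pow_ne_zero _ ht)
  have hv1 : ImgT X.Fam (u * v) (fun b => P b + R b) x1 := by
    have := ValT.smul hx (inv_ne_zero ht)
    rwa [inv_smul_smul₀ ht] at this
  have hfix : ∀ φ : AlgebraicClosure K ≃ₐ[K] AlgebraicClosure K, ∀ c, φ (x1 c) = x1 c := by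
    intro φ c
    obtain ⟨g, hg⟩ := conj_ex hX hy ho φ
    have h4 : ImgT X.Fam (twT D φ (u * v))
        (twA D φ (fun b => P b + R b)) x1 := by
      refine ((hX _ _ _ hv1 (ho' _ hv1)).1 _ _).2 ⟨g, ?_, fun b => ?_⟩
      · have h6 : cjT T φ u * D.a φ = mon (S.linT g) u * S.trT g := hg.1
        change cjT T φ (u * v) * D.a φ = mon (S.linT g) (u * v) * S.trT g
        rw [cjT_mul, hv φ g hg, mon_mul]
        calc cjT T φ u * mon (S.linT g) v * D.a φ = (cjT T φ u * D.a φ) * mon (S.linT g) v := by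
              rw [mul_assoc, mul_comm (mon (S.linT g) v), ← mul_assoc]
          _ = mon (S.linT g) u * mon (S.linT g) v * S.trT g := by
              rw [h6, mul_assoc, mul_comm (S.trT g), ← mul_assoc]
      · have hg' : ∀ b, sg (A b) φ (P b) + D.c φ b = ln S.act g b (P b) + S.act.tr g b :=
          fun b => hg.2 b
        have h7 := hg' b
        change sg (A b) φ (P b + R b) + D.c φ b =
          ln S.act g b (P b + R b) + S.act.tr g b
        have h8 : sg (A b) φ (P b) = ln S.act g b (P b) + S.act.tr g b - D.c φ b := by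
          rw [← h7, add_sub_cancel_right]
        rw [map_add, hR φ g hg, h8, map_add]
        abel
    have h5 := X.gal φ _ _ _ hv1
    obtain ⟨t', -, ht'⟩ := ValT.unique h4 h5
    have h6 : mapV φ.toAlgHom x1 = x1 := normed_unique (Normed.mapV _ hx1) hx1 ht'
    exact congrFun h6 c
  have hgal : IsGalois K (AlgebraicClosure K) := inferInstance
  have hmem : ∀ c, ∃ z : K, algebraMap K (AlgebraicClosure K) z = x1 c := by
    intro c
    have := (InfiniteGalois.mem_range_algebraMap_iff_fixed (k := K) (K := AlgebraicClosure K)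
      (x1 c)).2 (fun φ => hfix φ c)
    exact this
  choose y' hy' using hmem
  have hup : up y' = x1 := funext hy'
  refine ⟨y', ?_, fun g hg => ?_, ?_⟩
  · obtain ⟨i, hi, hj⟩ := hx1
    refine ⟨i, ?_, fun j hji => ?_⟩
    · apply (algebraMap K (AlgebraicClosure K)).injective
      rw [hy', hi, map_one]
    · apply (algebraMap K (AlgebraicClosure K)).injective
      rw [hy', hj j hji, map_zero]
  · rw [← eval_up_iff, hup]
    exact hxe1 g hg
  · rw [hup]
    exact hv1

end rat

section mo

variable {K : Type} [Field K] [NumberField K] {n s : ℕ} {A : AbVar K n} {E : EndAlg A}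
  {T : Torus K s} {D : Tors T (fun _ : Fin 1 => A)} {G : Type} [Group G] {S : GActT D G}
  (Y : LinG E S) {u : TpB K s} {P : PtsB (fun _ : Fin 1 => A)}

lemma ln_eq (g : G) (b : Fin 1) (R : A.Pt (AlgebraicClosure K)) :
    ln S.act g b R = E.act (Y.lin g) R := by
  have hb : b = 0 := Subsingleton.elim _ _
  subst hb
  exact Y.lin_eq g R

lemma Mo_sg {R : A.Pt (AlgebraicClosure K)} (hR : R ∈ Mo Y u P) {φ : GalK K} {g : G}
    (hg : Moves S g u P (twT D φ u) (twA D φ P)) : sg A φ R = E.act (Y.lin g) R := by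
  have h := lin_inv Y g⁻¹ (hR g⁻¹ φ hg.inv)
  rwa [inv_inv] at h

lemma Mo_fld {F : IntermediateField K (AlgebraicClosure K)} [FiniteDimensional K F]
    [Normal K F] (hF : Big D u P F)
    {R : A.Pt (AlgebraicClosure K)} (hR : R ∈ Mo Y u P) : ∀ c, R.1 c ∈ F := by
  refine (fix_fld (A := fun _ : Fin 1 => A) (b := 0) F).2 (fun σ hσ => ?_)
  have h1 : twT D σ u = u := by
    unfold twT
    rw [cjT_eq, hF.split σ hσ, mon_one_mat, (hF.tors σ hσ).1, mul_one]
    funext i
    exact Units.ext (hσ _ (hF.tor i))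
  have h2 : twA D σ P = P := by
    funext b
    change cjg A σ (P b) + D.c σ b = P b
    rw [(hF.tors σ hσ).2 b, add_zero]
    apply Subtype.ext
    funext c
    exact hσ _ (hF.ab b c)
  have h3 := hR 1 σ (by rw [h1, h2]; exact moves_one S u P)
  rw [map_one, act_one] at h3
  exact h3

lemma RT_mem [Fintype G] : RT S P 0 ∈ Mo Y u P := by
  intro g σ h
  have h1 := h.inv
  have h2 : sg A σ (RT S P 0) = ln S.act g⁻¹ 0 (RT S P 0) := sg_RT S (fun b => h1.2 b) 0
  rw [h2, ln_eq Y, ← act_mul, ← map_mul, mul_inv_cancel, map_one, act_one]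

end mo

end Pool.Agent.K1H82.KU
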